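import Mathlib

set_option autoImplicit false

namespace Pool.Agent.Results.MP_10bb55_an.NoRepelling

noncomputable section

open MvPolynomial

/-- `F = (F 0, F 1, F 2)` are homogeneous polynomials of degree `d` on `ℂ³` whose only common
zero is `0`; such an `F` is a holomorphic self-map of degree `d` of the projective plane,
`[z] ↦ [F z]`. -/
def IsHoloMap (d : ℕ) (F : Fin 3 → MvPolynomial (Fin 3) ℂ) : Prop :=
  (∀ i, (F i).IsHomogeneous d) ∧ ∀ z : Fin 3 → ℂ, (∀ i, eval z (F i) = 0) → z = 0

/-- The point `[z]` of the projective plane is a fixed point of `[z] ↦ [F z]`, with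
`F z = c z`. -/
def IsFixedPt (F : Fin 3 → MvPolynomial (Fin 3) ℂ) (z : Fin 3 → ℂ) (c : ℂ) : Prop :=
  z ≠ 0 ∧ ∀ i, eval z (F i) = c * z i

/-- The complex derivative `DF(z)` applied to the vector `v`. -/
def deriv3 (F : Fin 3 → MvPolynomial (Fin 3) ℂ) (z v : Fin 3 → ℂ) : Fin 3 → ℂ :=
  fun i => ∑ j, eval z (pderiv j (F i)) * v j

/-- If `F z = c z`, the derivative of `f = [F]` at the fixed point `[z]`, on the tangent space
`ℂ³ / ℂ z`, is the map induced by `c⁻¹ DF(z)`. `lam` is an eigenvalue of it: some `v ∉ ℂ z` has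
`c⁻¹ DF(z) v - lam v ∈ ℂ z`. -/
def IsTangentEigenvalue (F : Fin 3 → MvPolynomial (Fin 3) ℂ) (z : Fin 3 → ℂ) (c lam : ℂ) : Prop :=
  ∃ v : Fin 3 → ℂ, (∀ k : ℂ, v ≠ k • z) ∧ ∃ k : ℂ, c⁻¹ • deriv3 F z v - lam • v = k • z

/-- the map `[x : y : t] ↦ [x² - 2xy + 2xt : y² - 2xy + 2yt : 3t²]` -/
def G : Fin 3 → MvPolynomial (Fin 3) ℂ :=
  ![X 0 * X 0 - C 2 * (X 0 * X 1) + C 2 * (X 0 * X 2),
    X 1 * X 1 - C 2 * (X 0 * X 1) + C 2 * (X 1 * X 2),
    C 3 * (X 2 * X 2)]

lemma hom2 (i j : Fin 3) : (X i * X j : MvPolynomial (Fin 3) ℂ).IsHomogeneous 2 :=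
  (isHomogeneous_X ℂ i).mul (isHomogeneous_X ℂ j)

lemma homC2 (a : ℂ) (i j : Fin 3) : (C a * (X i * X j) : MvPolynomial (Fin 3) ℂ).IsHomogeneous 2 := by
  have := (isHomogeneous_C (Fin 3) a).mul (hom2 i j)
  simpa using this

lemma G_hom : ∀ i, (G i).IsHomogeneous 2 := by
  intro i
  fin_cases i
  · exact ((hom2 0 0).sub (homC2 2 0 1)).add (homC2 2 0 2)
  · exact ((hom2 1 1).sub (homC2 2 0 1)).add (homC2 2 1 2)
  · exact homC2 3 2 2

lemma G0 (z : Fin 3 → ℂ) : eval z (G 0) = z 0 * z 0 - 2 * (z 0 * z 1) + 2 * (z 0 * z 2) := by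
  simp [G]
lemma G1 (z : Fin 3 → ℂ) : eval z (G 1) = z 1 * z 1 - 2 * (z 0 * z 1) + 2 * (z 1 * z 2) := by
  simp [G]
lemma G2 (z : Fin 3 → ℂ) : eval z (G 2) = 3 * (z 2 * z 2) := by
  simp [G]

lemma G_nondeg (z : Fin 3 → ℂ) (h : ∀ i, eval z (G i) = 0) : z = 0 := by
  have h0 := h 0
  have h1 := h 1
  have h2 := h 2
  rw [G0] at h0
  rw [G1] at h1
  rw [G2] at h2
  have t0 : z 2 = 0 := by
    have : z 2 * z 2 = 0 := by linear_combination h2 / 3
    exact mul_self_eq_zero.1 this
  rw [t0] at h0 h1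
  have e0 : z 0 * (z 0 - 2 * z 1) = 0 := by linear_combination h0
  have e1 : z 1 * (z 1 - 2 * z 0) = 0 := by linear_combination h1
  have hx : z 0 = 0 ∧ z 1 = 0 := by
    rcases mul_eq_zero.1 e0 with a | a
    · refine ⟨a, ?_⟩
      rw [a] at e1
      have : z 1 * z 1 = 0 := by linear_combination e1
      exact mul_self_eq_zero.1 this
    · rcases mul_eq_zero.1 e1 with b | b
      · refine ⟨?_, b⟩
        linear_combination a + 2 * b
      · constructor
        · linear_combination (-1/3) * a + (-2/3) * b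
        · linear_combination (-2/3) * a + (-1/3) * b
  ext i
  fin_cases i
  · exact hx.1
  · exact hx.2
  · exact t0

lemma D0 (z v : Fin 3 → ℂ) : deriv3 G z v 0 =
    (2 * z 0 - 2 * z 1 + 2 * z 2) * v 0 + (- 2 * z 0) * v 1 + (2 * z 0) * v 2 := by
  simp [deriv3, Fin.sum_univ_three, G, pderiv_X, Pi.single_apply]
  left; ring

lemma D1 (z v : Fin 3 → ℂ) : deriv3 G z v 1 =
    (- 2 * z 1) * v 0 + (2 * z 1 - 2 * z 0 + 2 * z 2) * v 1 + (2 * z 1) * v 2 := by
  simp [deriv3, Fin.sum_univ_three, G, pderiv_X, Pi.single_apply]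
  left; ring

lemma D2 (z v : Fin 3 → ℂ) : deriv3 G z v 2 = 6 * z 2 * v 2 := by
  simp [deriv3, Fin.sum_univ_three, G, pderiv_X, Pi.single_apply]
  left; ring

/-- There is a holomorphic self-map of degree `2` of the projective plane all of whose fixed
points have an eigenvalue of modulus `< 1`. -/
theorem result : ∃ F : Fin 3 → MvPolynomial (Fin 3) ℂ, IsHoloMap 2 F ∧
    ∀ (z : Fin 3 → ℂ) (c : ℂ), IsFixedPt F z c →
      ∃ lam : ℂ, ‖lam‖ < 1 ∧ IsTangentEigenvalue F z c lam := by
  refine ⟨G, ⟨G_hom, G_nondeg⟩, ?_⟩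
  rintro z c ⟨hz, hfix⟩
  have h0 := hfix 0
  have h1 := hfix 1
  have h2 := hfix 2
  rw [G0] at h0
  rw [G1] at h1
  rw [G2] at h2
  by_cases t0 : z 2 = 0
  · -- points on the line at infinity
    refine ⟨0, by simp, ![0, 0, 1], ?_, c⁻¹ * 2, ?_⟩
    · intro k hk
      have := congrFun hk 2
      simp [t0] at this
    · ext i
      fin_cases i
      · simp [D0]; ring
      · simp [D1]; ring
      · simp [D2, t0]
  · have hc : c = 3 * z 2 := by
      have : z 2 * (c - 3 * z 2) = 0 := by linear_combination -h2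
      rcases mul_eq_zero.1 this with a | a
      · exact absurd a t0
      · linear_combination a
    have hc0 : c ≠ 0 := by rw [hc]; exact mul_ne_zero (by norm_num) t0
    have e0 : z 0 * (z 0 - 2 * z 1 - z 2) = 0 := by rw [hc] at h0; linear_combination h0
    have e1 : z 1 * (z 1 - 2 * z 0 - z 2) = 0 := by rw [hc] at h1; linear_combination h1
    by_cases x0 : z 0 = 0
    · by_cases y0 : z 1 = 0
      · -- the point [0:0:1]
        refine ⟨2 / 3, by norm_num, ![1, 0, 0], ?_, 0, ?_⟩
        · intro k hk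
          have := congrFun hk 0
          simp [x0] at this
        · ext i
          fin_cases i
          · simp [D0, x0, y0]; rw [hc]; field_simp; ring
          · simp [D1, x0, y0]
          · simp [D2]
      · have y1 : z 1 = z 2 := by
          rcases mul_eq_zero.1 e1 with a | a
          · exact absurd a y0
          · rw [x0] at a; linear_combination a
        refine ⟨0, by simp, ![2, 1, 0], ?_, 0, ?_⟩
        · intro k hk
          have := congrFun hk 0
          simp [x0] at this
        · ext i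
          fin_cases i
          · simp [D0, x0, y1]
          · simp [D1, x0, y1]; right; ring
          · simp [D2]
    · have a0 : z 0 - 2 * z 1 - z 2 = 0 := (mul_eq_zero.1 e0).resolve_left x0
      by_cases y0 : z 1 = 0
      · have x1 : z 0 = z 2 := by rw [y0] at a0; linear_combination a0
        refine ⟨0, by simp, ![1, 2, 0], ?_, 0, ?_⟩
        · intro k hk
          have := congrFun hk 1
          simp [y0] at this
        · ext i
          fin_cases i
          · simp [D0, x1, y0]; right; ring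
          · simp [D1, x1, y0]
          · simp [D2]
      · have a1 : z 1 - 2 * z 0 - z 2 = 0 := (mul_eq_zero.1 e1).resolve_left y0
        have x1 : z 0 = - z 2 := by linear_combination (-1/3) * a0 + (-2/3) * a1
        have y1 : z 1 = - z 2 := by linear_combination (-2/3) * a0 + (-1/3) * a1
        refine ⟨0, by simp, ![1, -1, 0], ?_, 0, ?_⟩
        · intro k hk
          have := congrFun hk 0
          have h' := congrFun hk 2
          have h'' := congrFun hk 1
          simp [x1, y1] at this h'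
          rcases h' with h' | h'
          · simp [h'] at this
          · exact t0 h'
        · ext i
          fin_cases i
          · simp [D0, x1, y1]
          · simp [D1, x1, y1]
          · simp [D2]

end

end Pool.Agent.Results.MP_10bb55_an.NoRepelling
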